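import Pool.Agent.K4W.StmtsA

/-!
# K4W, row APA: part A in the form of the definitions
-/

set_option autoImplicit false

namespace Pool.Agent.K4W.H49

open Pool.Agent.Helper69_Weyl (ee W)
open Pool.Agent.VM (Sc)
open Pool.Agent.K4W

theorem apa : ApaStmt := by
  intro hamj ε hε
  obtain ⟨C, hC, hmain⟩ := hamj ε hε
  refine ⟨C * (2 : ℝ) ^ ε, by positivity, ?_⟩
  intro N u b t ξ P hN hu hP hg ht
  have h1 := hmain N u b t ξ hN hu hg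
  have hN1 : (1 : ℝ) ≤ (N : ℝ) := by exact_mod_cast hN
  have hu1 : (1 : ℝ) ≤ (u : ℝ) := by exact_mod_cast hu
  have hN0 : (0 : ℝ) < (N : ℝ) := by linarith
  have hu0 : (0 : ℝ) < (u : ℝ) := by linarith
  set D : ℝ := |t - (b : ℝ) / (u : ℝ)| with hD
  have hD0 : 0 ≤ D := abs_nonneg _
  set T : ℝ := (N : ℝ) ^ 4 * D with hT
  have hT0 : 0 ≤ T := by positivity
  have hUT : (u : ℝ) * T ≤ (N : ℝ) ^ 4 / P := by
    have h2 : (u : ℝ) * D ≤ 1 / P := by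
      calc (u : ℝ) * D ≤ (u : ℝ) * (1 / ((u : ℝ) * P)) :=
            mul_le_mul_of_nonneg_left ht hu0.le
        _ = 1 / P := by field_simp
    calc (u : ℝ) * T = (N : ℝ) ^ 4 * ((u : ℝ) * D) := by rw [hT]; ring
      _ ≤ (N : ℝ) ^ 4 * (1 / P) := mul_le_mul_of_nonneg_left h2 (by positivity)
      _ = (N : ℝ) ^ 4 / P := by ring
  -- the first factor
  have hA : ((N : ℝ) + (u : ℝ)) ^ ε ≤ (2 : ℝ) ^ ε * ((N : ℝ) * (u : ℝ)) ^ ε := by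
    rw [← Real.mul_rpow (by norm_num) (by positivity)]
    apply Real.rpow_le_rpow (by positivity) _ hε.le
    nlinarith [mul_nonneg (sub_nonneg.2 hN1) (sub_nonneg.2 hu1)]
  -- the second factor
  have hB1 : (N : ℝ) * ((u : ℝ) * (1 + T)) ^ (-(1 / 4) : ℝ) ≤
      (N : ℝ) * (u : ℝ) ^ (-(1 / 4) : ℝ) := by
    apply mul_le_mul_of_nonneg_left _ hN0.le
    apply Real.rpow_le_rpow_of_nonpos hu0 _ (by norm_num)
    nlinarith [mul_nonneg hu0.le hT0]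
  have hB2 : √((u : ℝ) * (1 + T)) ≤ (u : ℝ) ^ ((1 / 2) : ℝ) +
      (N : ℝ) ^ 2 * P ^ (-(1 / 2) : ℝ) := by
    have h3 : √((u : ℝ) * (1 + T)) ≤ √(u : ℝ) + √((u : ℝ) * T) := by
      rw [mul_add, mul_one]
      apply Real.sqrt_le_iff.2
      refine ⟨by positivity, ?_⟩
      have e1 := Real.sq_sqrt hu0.le
      have e2 := Real.sq_sqrt (show (0 : ℝ) ≤ (u : ℝ) * T by positivity)
      have e3 : 0 ≤ √(u : ℝ) * √((u : ℝ) * T) := by positivity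
      nlinarith [e1, e2, e3]
    have h4 : √((u : ℝ) * T) ≤ (N : ℝ) ^ 2 * P ^ (-(1 / 2) : ℝ) := by
      refine (Real.sqrt_le_sqrt hUT).trans (le_of_eq ?_)
      rw [Real.sqrt_div' _ hP.le, Real.rpow_neg hP.le, ← Real.sqrt_eq_rpow]
      have h5 : √((N : ℝ) ^ 4) = (N : ℝ) ^ 2 := by
        rw [show (N : ℝ) ^ 4 = ((N : ℝ) ^ 2) ^ 2 by ring]
        exact Real.sqrt_sq (by positivity)
      rw [h5]
      ring
    rw [← Real.sqrt_eq_rpow]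
    linarith
  have hB : (N : ℝ) * ((u : ℝ) * (1 + T)) ^ (-(1 / 4) : ℝ) + √((u : ℝ) * (1 + T)) ≤
      (N : ℝ) * (u : ℝ) ^ (-(1 / 4) : ℝ) + (u : ℝ) ^ ((1 / 2) : ℝ) +
        (N : ℝ) ^ 2 * P ^ (-(1 / 2) : ℝ) := by linarith
  have hB0 : 0 ≤ (N : ℝ) * ((u : ℝ) * (1 + T)) ^ (-(1 / 4) : ℝ) + √((u : ℝ) * (1 + T)) := by
    positivity
  calc ‖W 4 N t ξ‖ ≤ C * ((N : ℝ) + (u : ℝ)) ^ ε *
        ((N : ℝ) * ((u : ℝ) * (1 + T)) ^ (-(1 / 4) : ℝ) + √((u : ℝ) * (1 + T))) := h1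
    _ ≤ C * ((2 : ℝ) ^ ε * ((N : ℝ) * (u : ℝ)) ^ ε) *
        ((N : ℝ) * (u : ℝ) ^ (-(1 / 4) : ℝ) + (u : ℝ) ^ ((1 / 2) : ℝ) +
          (N : ℝ) ^ 2 * P ^ (-(1 / 2) : ℝ)) := by
        apply mul_le_mul (mul_le_mul_of_nonneg_left hA hC.le) hB hB0 (by positivity)
    _ = C * (2 : ℝ) ^ ε * ((N : ℝ) * (u : ℝ)) ^ ε *
        ((N : ℝ) * (u : ℝ) ^ (-(1 / 4) : ℝ) + (u : ℝ) ^ ((1 / 2) : ℝ) +
          (N : ℝ) ^ 2 * P ^ (-(1 / 2) : ℝ)) := by ring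

end Pool.Agent.K4W.H49
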